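import Pool.Agent.MP_66cee2_co.H30U.Main

/-
The colouring with a margin that shrinks with the dimension.
-/

namespace Pool.Agent.MP_66cee2_co.H46U

open MeasureTheory Set Metric ProbabilityTheory Filter Pool.Agent.MP_66cee2_co.H30U
open scoped RealInnerProductSpace

variable {d m : ℕ}

/-- the radius of the forbidden ball. -/
noncomputable def ro : ℝ := 3 * √3 / 4

theorem ro_sq : ro ^ 2 = 27 / 16 := by
  have : (√3 : ℝ) ^ 2 = 3 := Real.sq_sqrt (by norm_num)
  unfold ro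
  linear_combination (9 / 16) * this

theorem ro_pos : 0 < ro := by unfold ro; positivity

theorem ro_ge : 129 / 100 ≤ ro := by
  by_contra h
  nlinarith [ro_sq, ro_pos]

theorem ro_le : ro ≤ 13 / 10 := by
  by_contra h
  nlinarith [ro_sq, ro_pos]

theorem key (u w : V d) (hu : ‖u‖ < 1 / 2) (h : ro < ‖w - (3 / 2 : ℝ) • u‖) :
    2 * ⟪w, u⟫ < ‖w‖ ^ 2 - ‖w‖ := by
  have e : ‖w - (3 / 2 : ℝ) • u‖ ^ 2 = ‖w‖ ^ 2 - 3 * ⟪w, u⟫ + 9 / 4 * ‖u‖ ^ 2 := by
    rw [norm_sub_sq_real, real_inner_smul_right, norm_smul, Real.norm_eq_abs,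
      abs_of_pos (by norm_num : (0 : ℝ) < 3 / 2)]
    ring
  have h2 : ro ^ 2 < ‖w - (3 / 2 : ℝ) • u‖ ^ 2 := pow_lt_pow_left₀ h ro_pos.le (by norm_num)
  have h3 : ‖u‖ ^ 2 ≤ (1 / 2) ^ 2 := pow_le_pow_left₀ (norm_nonneg _) hu.le 2
  rw [ro_sq] at h2
  nlinarith [sq_nonneg (‖w‖ - 3 / 2)]

theorem sep {a : Fin m → V d} {i j : Fin m} {x y : V d} (hij : i ≠ j)
    (hx : Good (1 / 2) ro a j x) (hy : Good (1 / 2) ro a i y) : 1 < ‖y - x‖ := by
  have h1 := key (x - a j) (a i - a j) hx.1 (by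
    have := hx.2 i hij
    rwa [← sub_sub] at this)
  have h2 := key (y - a i) (a j - a i) hy.1 (by
    have := hy.2 j hij.symm
    rwa [← sub_sub] at this)
  have e1 : a j - a i = -(a i - a j) := by abel
  rw [e1, inner_neg_left, norm_neg] at h2
  have e2 : y - x = (a i - a j) + (y - a i) - (x - a j) := by abel
  have e3 : ⟪a i - a j, y - x⟫ = ‖a i - a j‖ ^ 2 + ⟪a i - a j, y - a i⟫ - ⟪a i - a j, x - a j⟫ := by
    conv_lhs => rw [e2]
    rw [inner_sub_right, inner_add_right, real_inner_self_eq_norm_sq]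
  have h4 := real_inner_le_norm (a i - a j) (y - x)
  by_contra hc
  rw [not_lt] at hc
  nlinarith [norm_nonneg (a i - a j)]

theorem robust {a : Fin m → V d} {j : Fin m} {x z : V d} {η : ℝ}
    (hz : Good (1 / 2 - η) (ro + 3 / 2 * η) a j z) (h : ‖x - z‖ ≤ η) :
    Good (1 / 2) ro a j x := by
  refine ⟨?_, fun i hi => ?_⟩
  · have e : x - a j = (x - z) + (z - a j) := by abel
    rw [e]
    linarith [norm_add_le (x - z) (z - a j), hz.1]
  · have e : a i - (a j + (3 / 2 : ℝ) • (z - a j))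
        = (a i - (a j + (3 / 2 : ℝ) • (x - a j))) + (3 / 2 : ℝ) • (x - z) := by
      simp only [smul_sub]; abel
    have h1 := hz.2 i hi
    rw [e] at h1
    have h2 := norm_add_le (a i - (a j + (3 / 2 : ℝ) • (x - a j))) ((3 / 2 : ℝ) • (x - z))
    rw [norm_smul, Real.norm_eq_abs, abs_of_pos (by norm_num : (0 : ℝ) < 3 / 2)] at h2
    linarith

theorem prob (ν : Measure (V d)) [IsProbabilityMeasure ν] (z : V d) (v r s : ℝ) (hv0 : 0 ≤ v)
    (hv : ∀ c, ν.real (closedBall c s) ≤ v)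
    (hg : ∀ (a : Fin m → V d) j, Good r s a j z → Good (1 / 2) ro a j z) :
    m * (ν.real (ball z r) * (1 - m * v)) ≤
      (Measure.pi fun _ : Fin m => ν).real (⋃ j, {a | Good r s a j z}) := by
  rw [measureReal_iUnion_fintype ?_ (fun j => good_meas _ _ j z)]
  · have h : ∀ j : Fin m, ν.real (ball z r) * (1 - m * v) ≤
        (Measure.pi fun _ : Fin m => ν).real {a | Good r s a j z} := by
      intro j
      have e1 : (Measure.pi fun _ : Fin m => ν).real
          ((fun a : Fin m → V d => a j) ⁻¹' ball z r) = ν.real (ball z r) :=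
        (measurePreserving_eval (fun _ : Fin m => ν) j).measureReal_preimage
          measurableSet_ball.nullMeasurableSet
      have sub : (fun a : Fin m → V d => a j) ⁻¹' ball z r ⊆
          {a | Good r s a j z} ∪ ⋃ i ∈ Finset.univ.erase j,
            {a | ‖z - a j‖ < r ∧ ‖a i - (a j + (3 / 2 : ℝ) • (z - a j))‖ ≤ s} := by
        intro a ha
        have ha' : ‖z - a j‖ < r := by
          rw [mem_preimage, mem_ball, dist_comm, dist_eq_norm] at ha; exact ha
        by_cases hg : ∀ i, i ≠ j → s < ‖a i - (a j + (3 / 2 : ℝ) • (z - a j))‖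
        · exact Or.inl ⟨ha', hg⟩
        · simp only [not_forall, not_lt] at hg
          obtain ⟨i, hi, hle⟩ := hg
          exact Or.inr (mem_biUnion (Finset.mem_erase.2 ⟨hi, Finset.mem_univ _⟩) ⟨ha', hle⟩)
      have e2 := (measureReal_mono (μ := Measure.pi fun _ : Fin m => ν) sub).trans
        ((measureReal_union_le _ _).trans (add_le_add le_rfl ((measureReal_biUnion_finset_le _ _).trans
          (Finset.sum_le_card_nsmul _ _ (ν.real (ball z r) * v) fun i hi =>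
            pair ν (Finset.mem_erase.1 hi).1 z _ _ v hv0 hv))))
      rw [e1, nsmul_eq_mul] at e2
      have e3 : ((Finset.univ.erase j).card : ℝ) ≤ m := by
        exact_mod_cast (Finset.card_erase_le.trans (by simp))
      have e4 : 0 ≤ ν.real (ball z r) * v := mul_nonneg measureReal_nonneg hv0
      nlinarith
    have := Finset.card_nsmul_le_sum Finset.univ _ _ fun j _ => h j
    simpa using this
  · intro i j hij
    refine disjoint_left.2 fun a h1 h2 => ?_
    have := sep hij (hg a _ h2) (hg a _ h1)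
    simp at this
    linarith

theorem ratio (hd : 1 ≤ d) :
    ((ro + 3 / 2 * (1 / (10 * d))) / (1 / 2 - 1 / (10 * d))) ^ d ≤ 2 * (2 * ro) ^ d := by
  have hd' : (1 : ℝ) ≤ d := by exact_mod_cast hd
  obtain ⟨η, hη⟩ : ∃ η : ℝ, η = 1 / (10 * d) := ⟨_, rfl⟩
  have e0 : 0 < η := by rw [hη]; positivity
  have e1 : η ≤ 1 / 10 := by
    rw [hη]; exact one_div_le_one_div_of_le (by norm_num) (by linarith)
  have e2 : d * (4 * η) = 2 / 5 := by rw [hη]; field_simp; norm_num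
  rw [← hη]
  have a1 : (ro + 3 / 2 * η) / (1 / 2 - η) ≤ (1 + 4 * η) * (2 * ro) := by
    rw [div_le_iff₀ (by linarith)]
    have b1 : 6 / 5 * (129 / 100) ≤ (2 - 8 * η) * ro :=
      mul_le_mul (by linarith) ro_ge (by norm_num) (by linarith)
    have b2 := mul_le_mul_of_nonneg_left b1 e0.le
    nlinarith
  have a2 : (1 + 4 * η) ^ d ≤ 2 := by
    have b1 : (1 + 4 * η) ^ d ≤ Real.exp (4 * η) ^ d :=
      pow_le_pow_left₀ (by positivity) (by linarith [Real.add_one_le_exp (4 * η)]) d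
    rw [← Real.exp_nat_mul, e2] at b1
    have b2 := Real.add_one_le_exp (-(2 / 5 : ℝ))
    have b3 : Real.exp (2 / 5) * Real.exp (-(2 / 5 : ℝ)) = 1 := by rw [← Real.exp_add]; simp
    nlinarith [Real.exp_pos (2 / 5 : ℝ)]
  have p0 := ro_pos
  calc _ ≤ ((1 + 4 * η) * (2 * ro)) ^ d :=
        pow_le_pow_left₀ (div_nonneg (by positivity) (by linarith)) a1 d
    _ = (1 + 4 * η) ^ d * (2 * ro) ^ d := mul_pow _ _ _
    _ ≤ _ := mul_le_mul_of_nonneg_right a2 (by positivity)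

/-- a colouring of the cube -/
theorem cube (hd : 1 ≤ d) (N : ℕ) (hN : 144 * (d : ℝ) ^ 2 * (2 * ro) ^ d < N) :
    ∃ col : V d → Fin N, ∀ x y : V d, (∀ i, 0 ≤ x i ∧ x i < 2 * d) →
      (∀ i, 0 ≤ y i ∧ y i < 2 * d) → col x = col y → ‖y - x‖ ≠ 1 := by
  have hd' : (1 : ℝ) ≤ d := by exact_mod_cast hd
  have hrat := ratio hd
  obtain ⟨η, hη⟩ : ∃ η : ℝ, η = 1 / (10 * d) := ⟨_, rfl⟩
  have e0 : 0 < η := by rw [hη]; positivity
  have e1 : η ≤ 1 / 10 := by
    rw [hη]; exact one_div_le_one_div_of_le (by norm_num) (by linarith)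
  rw [← hη] at hrat
  obtain ⟨r, hr⟩ : ∃ r : ℝ, r = 1 / 2 - η := ⟨_, rfl⟩
  obtain ⟨s, hs⟩ : ∃ s : ℝ, s = ro + 3 / 2 * η := ⟨_, rfl⟩
  have r0 : 0 < r := by linarith
  have s0 : 0 < s := by linarith [ro_pos]
  have s1 : s ≤ 3 / 2 := by linarith [ro_le]
  rw [← hr, ← hs] at hrat
  obtain ⟨R, hR⟩ : ∃ R : ℝ, R = 2 * d ^ 2 + 1 := ⟨_, rfl⟩
  have R3 : 3 ≤ R := by nlinarith
  obtain ⟨ν, hν, h1, h2⟩ := unif (d := d) R (by linarith)
  obtain ⟨v, hv⟩ : ∃ v : ℝ, v = (s / R) ^ d := ⟨_, rfl⟩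
  have R0 : 0 < R := by linarith
  have v0 : 0 < v := by rw [hv]; positivity
  have v1 : v ≤ 1 / 2 := by
    have : s / R ≤ 1 / 2 := by rw [div_le_iff₀ (by linarith)]; linarith
    rw [hv]
    exact (pow_le_of_le_one (by positivity) (by linarith) (by omega)).trans this
  obtain ⟨m, m1, m2⟩ : ∃ m : ℕ, m * v ≤ 1 / 2 ∧ 1 / 4 ≤ m * v := by
    have a1 : 1 ≤ 1 / (2 * v) := by rw [le_div_iff₀ (by positivity)]; linarith
    have a2 := Nat.floor_le (show 0 ≤ 1 / (2 * v) by positivity)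
    have a3 := Nat.lt_floor_add_one (1 / (2 * v))
    have a4 : (1 : ℝ) ≤ ⌊1 / (2 * v)⌋₊ := by exact_mod_cast Nat.floor_pos.2 a1
    refine ⟨⌊1 / (2 * v)⌋₊, ?_, ?_⟩
    · rw [le_div_iff₀ (by positivity)] at a2; linarith
    · rw [div_lt_iff₀ (by positivity)] at a3; nlinarith
  let pt : (Fin d → Fin (20 * d ^ 3)) → V d := fun k =>
    WithLp.toLp 2 fun i => ((k i : ℕ) : ℝ) / (10 * d ^ 2)
  have ptn : ∀ k, ‖pt k‖ + r ≤ R := by
    intro k
    have := norm_le_of (pt k) (2 * d) (by positivity) fun i => by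
      have hk : ((k i : ℕ) : ℝ) ≤ 20 * d ^ 3 := by exact_mod_cast (k i).2.le
      simp only [pt]
      rw [abs_of_nonneg (by positivity), div_le_iff₀ (by positivity)]
      nlinarith
    nlinarith
  obtain ⟨p, hp⟩ : ∃ p : ℝ, p = (r / s) ^ d / 8 := ⟨_, rfl⟩
  have q1 : (r / R) ^ d = (r / s) ^ d * v := by
    rw [hv, ← mul_pow]; congr 1; field_simp
  obtain ⟨ω, hω⟩ := cover (Measure.pi fun _ : Fin m => ν)
    (fun k => ⋃ j, {a | Good r s a j (pt k)})
    (fun k => MeasurableSet.iUnion fun j => good_meas _ _ j _) p (fun k => by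
      refine le_trans ?_ (prob ν (pt k) v r s v0.le (fun c => hv ▸ h2 c _ s0.le)
        fun a j h => robust (η := η) (hr ▸ hs ▸ h) (by simpa using e0.le))
      rw [h1 _ _ r0 (ptn k), q1, hp]
      have : (0 : ℝ) < (r / s) ^ d := by positivity
      have e : (m : ℝ) * ((r / s) ^ d * v * (1 - m * v))
          = (r / s) ^ d * ((m * v) * (1 - m * v)) := by ring
      rw [e, div_eq_mul_inv ((r / s) ^ d)]
      refine mul_le_mul_of_nonneg_left ?_ this.le
      nlinarith) N (by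
      rw [Fintype.card_fun, Fintype.card_fin, Fintype.card_fin]
      push_cast
      have a1 : ((20 : ℝ) * d ^ 3) ^ d ≤ Real.exp (d * (9 * d)) := by
        rw [Real.exp_nat_mul]
        refine pow_le_pow_left₀ (by positivity) ?_ d
        have b1 : (3 * (d : ℝ)) ^ 3 ≤ Real.exp (3 * d) ^ 3 :=
          pow_le_pow_left₀ (by positivity) (by linarith [Real.add_one_le_exp (3 * (d : ℝ))]) 3
        rw [← Real.exp_nat_mul] at b1
        have b2 : ((3 : ℕ) : ℝ) * (3 * d) = 9 * d := by push_cast; ring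
        rw [b2] at b1
        have b3 : (0 : ℝ) ≤ d ^ 3 := by positivity
        nlinarith
      have a2 : (d : ℝ) * (9 * d) < p * N := by
        have e : (r / s) ^ d * (s / r) ^ d = 1 := by
          rw [← mul_pow, show r / s * (s / r) = 1 by field_simp, one_pow]
        have : (0 : ℝ) < (r / s) ^ d := by positivity
        have a0 : 72 * (d : ℝ) ^ 2 * (s / r) ^ d < N := by
          have := mul_le_mul_of_nonneg_left hrat (show (0 : ℝ) ≤ 72 * d ^ 2 by positivity)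
          linarith
        have a3 := mul_lt_mul_of_pos_left a0 this
        have e2 : (r / s) ^ d * (72 * (d : ℝ) ^ 2 * (s / r) ^ d)
            = 72 * (d : ℝ) ^ 2 := by linear_combination (72 * (d : ℝ) ^ 2) * e
        rw [e2] at a3
        rw [hp]; nlinarith
      calc _ ≤ Real.exp (d * (9 * d)) * Real.exp (-p * N) :=
            mul_le_mul_of_nonneg_right a1 (Real.exp_pos _).le
        _ < 1 := by rw [← Real.exp_add, Real.exp_lt_one_iff]; linarith)
  have ex : ∀ x : V d, ∃ k : Fin N, (∀ i, 0 ≤ x i ∧ x i < 2 * d) →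
      ∃ j, Good (1 / 2) ro (ω k) j x := by
    intro x
    by_cases hx : ∀ i, 0 ≤ x i ∧ x i < 2 * d
    · have lt : ∀ i, ⌊x i * (10 * d ^ 2)⌋₊ < 20 * d ^ 3 := by
        intro i
        rw [Nat.floor_lt (mul_nonneg (hx i).1 (by positivity))]
        push_cast
        have := mul_lt_mul_of_pos_right (hx i).2 (show (0 : ℝ) < 10 * d ^ 2 by positivity)
        nlinarith
      obtain ⟨k, hk⟩ := hω fun i => ⟨_, lt i⟩
      obtain ⟨j, hj⟩ := mem_iUnion.1 hk
      refine ⟨k, fun _ => ⟨j, robust (η := η) (hr ▸ hs ▸ hj) ?_⟩⟩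
      have := norm_le_of (x - pt fun i => ⟨_, lt i⟩) (1 / (10 * d ^ 2)) (by positivity) fun i => by
        have a1 := Nat.floor_le (mul_nonneg (hx i).1 (show (0 : ℝ) ≤ 10 * d ^ 2 by positivity))
        have a2 := Nat.lt_floor_add_one (x i * (10 * d ^ 2))
        have e : (x - pt fun i => ⟨_, lt i⟩) i
            = (x i * (10 * d ^ 2) - ⌊x i * (10 * d ^ 2)⌋₊) / (10 * d ^ 2) := by
          simp only [pt, PiLp.sub_apply]; field_simp
        rw [e, abs_of_nonneg (div_nonneg (by linarith) (by positivity))]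
        exact div_le_div_of_nonneg_right (by linarith) (by positivity)
      refine this.trans (le_of_eq ?_)
      rw [hη]
      field_simp
    · obtain ⟨k, -⟩ := hω fun i => ⟨0, by positivity⟩
      exact ⟨k, fun h => absurd h hx⟩
  choose col hcol using ex
  refine ⟨col, fun x y hx hy h => ?_⟩
  obtain ⟨j, hj⟩ := hcol x hx
  obtain ⟨i, hi⟩ := hcol y hy
  rw [← h] at hi
  by_cases hij : i = j
  · subst hij; exact (same hj hi).ne
  · exact (sep hij hj hi).ne'

theorem space (hd : 1 ≤ d) (N : ℕ) (hN : 144 * (d : ℝ) ^ 2 * (2 * ro) ^ d < N) :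
    ∃ col : V d → Fin (d + 1) × Fin N, ∀ x y : V d, ‖x - y‖ = 1 → col x ≠ col y := by
  obtain ⟨c, hc⟩ := cube hd N hN
  choose j n h using shift (d := d)
  let o : V d → V d := fun x =>
    WithLp.toLp 2 fun i => (2 * (j x : ℕ) + 2 + 2 * (d + 1) * n x i : ℝ)
  refine ⟨fun x => (j x, c (x - o x)), fun x y hxy he => ?_⟩
  obtain ⟨e1, e2⟩ := Prod.mk.inj he
  by_cases hn : n x = n y
  · have eo : o x = o y := by simp only [o, e1, hn]
    refine hc (y - o y) (x - o x) (h y) (h x) e2.symm ?_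
    rw [eo, sub_sub_sub_cancel_right, hxy]
  · obtain ⟨i, hi⟩ := Function.ne_iff.1 hn
    have a1 := h x i
    have a2 := h y i
    rw [e1] at a1
    have a3 : |(x - y) i| ≤ 1 := by
      rw [← hxy, ← Real.norm_eq_abs]; exact PiLp.norm_apply_le _ _
    rw [PiLp.sub_apply, abs_le] at a3
    have d0 : (0 : ℝ) ≤ d := by positivity
    rcases lt_or_gt_of_ne hi with hl | hl
    · have : (n x i : ℝ) + 1 ≤ n y i := by exact_mod_cast hl
      nlinarith [a1.1, a1.2, a2.1, a2.2]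
    · have : (n y i : ℝ) + 1 ≤ n x i := by exact_mod_cast hl
      nlinarith [a1.1, a1.2, a2.1, a2.2]

theorem upper (d n : ℕ) (hd : 1 ≤ d) (hn : 300 * (d : ℝ) ^ 3 * (3 * √3 / 2) ^ d ≤ n) :
    ∃ f : V d → V n, (∀ x y, ‖x - y‖ = 1 → ‖f x - f y‖ = 1) ∧
      ¬ ∀ x y, ‖f x - f y‖ = ‖x - y‖ := by
  have hd' : (1 : ℝ) ≤ d := by exact_mod_cast hd
  have e : (3 * √3 / 2 : ℝ) = 2 * ro := by unfold ro; ring
  rw [e] at hn
  obtain ⟨col, hc⟩ := space hd (⌊144 * (d : ℝ) ^ 2 * (2 * ro) ^ d⌋₊ + 1)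
    (by push_cast; exact Nat.lt_floor_add_one _)
  refine toMap hd n ?_ col hc
  rw [Fintype.card_prod, Fintype.card_fin, Fintype.card_fin]
  have p0 := ro_pos
  have a1 := Nat.floor_le (show 0 ≤ 144 * (d : ℝ) ^ 2 * (2 * ro) ^ d by positivity)
  have a2 : (1 : ℝ) ≤ (2 * ro) ^ d := one_le_pow₀ (by linarith [ro_ge])
  have a3 : (1 : ℝ) ≤ d ^ 2 := one_le_pow₀ hd'
  have a4 : (1 : ℝ) ≤ d ^ 2 * (2 * ro) ^ d := one_le_mul_of_one_le_of_one_le a3 a2
  have a5 : ((d : ℝ) + 1) * (⌊144 * (d : ℝ) ^ 2 * (2 * ro) ^ d⌋₊ + 1)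
      ≤ (2 * d) * (150 * (d ^ 2 * (2 * ro) ^ d)) :=
    mul_le_mul (by linarith) (by linarith) (by positivity) (by positivity)
  have a6 : (2 * (d : ℝ)) * (150 * (d ^ 2 * (2 * ro) ^ d)) = 300 * d ^ 3 * (2 * ro) ^ d := by ring
  have : (((d + 1) * (⌊144 * (d : ℝ) ^ 2 * (2 * ro) ^ d⌋₊ + 1) : ℕ) : ℝ) ≤ n := by
    push_cast; linarith
  exact_mod_cast this

end Pool.Agent.MP_66cee2_co.H46U
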